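import Mathlib
import Pool.Agent.H562R2.CayleyIso

set_option autoImplicit false
set_option linter.unusedSectionVars false

/-!
# Small-set expansion in Cayley graphs over `F_q^n`: subspaces are extremal in the convex sense

Let `F` be a field with `q` elements, `V` a finite vector space over `F`, and consider a weighted
Cayley graph of `V` whose weights are invariant under multiplication by nonzero scalars (for
`q = 2` these are all the weighted Cayley graphs of `F_2^n`).  Every convex nondecreasing lower
bound `ψ(codim W) ≤ Φ(W)` for the expansion of the linear subspaces `W` holds for all sets: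
`ψ(log_q(|V|/|A|)) ≤ Φ(A)`.  So the lower convex envelope of the small-set expansion profile is
given by the subspaces, and the best constant in the inequality `Φ(A) ≥ c log_q(|V|/|A|)` is
attained at a subspace.
-/

namespace Pool.Agent.Results.MP_8d8c46_lc.CayleyEnvelope

open Finset Module
open scoped Classical

noncomputable section

/-- The expansion of `A` in the Cayley graph of `V` with edge weights `μ`: the sum over `s` of
`μ s` times the proportion of the points `x ∈ A` with `x + s ∉ A`. -/
def weightedExpansion {V : Type} [AddCommGroup V] [Fintype V] (μ : V → ℝ) (A : Finset V) : ℝ :=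
  (∑ s, μ s * ((A.filter fun x => x + s ∉ A).card : ℝ)) / A.card

/-- The Cayley graph of `V` with connection set `S`. -/
def cay {V : Type} [AddCommGroup V] (S : Finset V) (hS : ∀ s ∈ S, -s ∈ S) (h0 : (0 : V) ∉ S) :
    SimpleGraph V where
  Adj x y := y - x ∈ S
  symm := ⟨fun x y h => by
    have := hS _ h
    rwa [neg_sub] at this⟩
  loopless := ⟨fun x h => h0 (by simpa using h)⟩

/-- The number of edges of `G` with exactly one endpoint in `A`, counted as ordered pairs
`(x,y)` with `x ∈ A`, `y ∉ A`. -/
def cut {V : Type} [Fintype V] (G : SimpleGraph V) (A : Finset V) : ℕ :=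
  (univ.filter fun p : V × V => p.1 ∈ A ∧ p.2 ∉ A ∧ G.Adj p.1 p.2).card

/-- The expansion `|E(A, V∖A)|/(d|A|)` in a `d`-regular graph. -/
def expansion {V : Type} [Fintype V] (G : SimpleGraph V) (d : ℕ) (A : Finset V) : ℝ :=
  (cut G A : ℝ) / (d * A.card)

/-- The vertex set of a linear subspace. -/
def carrier {F V : Type} [Field F] [AddCommGroup V] [Module F V] [Fintype V]
    (W : Submodule F V) : Finset V := univ.filter fun x => x ∈ W

/-- The codimension of a subspace. -/
def codim {F V : Type} [Field F] [AddCommGroup V] [Module F V] (W : Submodule F V) : ℝ :=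
  (finrank F V : ℝ) - finrank F W

/-- The logarithm, to base `q = |F|`, of the reciprocal density `|V| / |A|`. -/
def logDensity (F : Type) {V : Type} [Fintype F] [Fintype V] (A : Finset V) : ℝ :=
  Real.logb (Fintype.card F) (Fintype.card V / A.card)

section

variable {F V : Type} [Field F] [Fintype F] [AddCommGroup V] [Module F V] [Fintype V]

lemma carrier_nonempty (W : Submodule F V) : (carrier W).Nonempty := ⟨0, by simp [carrier]⟩

lemma out_subspace (W : Submodule F V) (s : V) :
    ((carrier W).filter fun x => x + s ∉ carrier W).card =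
      if s ∈ W then 0 else (carrier W).card := by
  split_ifs with h
  · rw [Finset.card_eq_zero, Finset.filter_eq_empty_iff]
    intro x hx
    simp only [carrier, Finset.mem_filter, Finset.mem_univ, true_and, not_not] at hx ⊢
    exact W.add_mem hx h
  · congr 1
    rw [Finset.filter_eq_self]
    intro x hx
    simp only [carrier, Finset.mem_filter, Finset.mem_univ, true_and] at hx ⊢
    intro hc
    apply h
    have := W.sub_mem hc hx
    simpa using this

/-- the expansion of a subspace is the weight outside it -/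
lemma expansion_subspace (μ : V → ℝ) (W : Submodule F V) :
    weightedExpansion μ (carrier W) = ∑ s ∈ univ.filter (fun s => s ∉ W), μ s := by
  have hc : (0 : ℝ) < (carrier W).card := by exact_mod_cast (carrier_nonempty W).card_pos
  unfold weightedExpansion
  simp_rw [out_subspace]
  rw [Finset.sum_filter, div_eq_iff hc.ne', Finset.sum_mul]
  refine Finset.sum_congr rfl fun s _ => ?_
  by_cases h : s ∈ W <;> simp [h]

lemma codim_nonneg (W : Submodule F V) : 0 ≤ codim W := by
  unfold codim
  have : finrank F W ≤ finrank F V := Submodule.finrank_le W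
  have : (finrank F W : ℝ) ≤ finrank F V := by exact_mod_cast this
  linarith

lemma codim_pos (W : Submodule F V) (h : W ≠ ⊤) : 0 < codim W := by
  unfold codim
  have : finrank F W < finrank F V := Submodule.finrank_lt h
  have : (finrank F W : ℝ) < finrank F V := by exact_mod_cast this
  linarith

lemma codim_top : codim (⊤ : Submodule F V) = 0 := by
  unfold codim
  rw [finrank_top]
  ring

/-- **affine lower bounds** -/
theorem affine (μ : V → ℝ) (hμ : ∀ s, 0 ≤ μ s)
    (hinv : ∀ (c : F) (s : V), c ≠ 0 → μ (c • s) = μ s) (a lam : ℝ) (hlam : 0 ≤ lam)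
    (h : ∀ W : Submodule F V, a + lam * codim W ≤ weightedExpansion μ (carrier W))
    (A : Finset V) (hA : A.Nonempty) : a + lam * logDensity F A ≤ weightedExpansion μ A := by
  obtain ⟨W, hW⟩ := H562R2.CayleyIso.main (F := F) μ hμ hinv lam hlam
  have h1 := hW A hA
  have h2 := h W
  rw [expansion_subspace] at h2
  unfold H562R2.CayleyIso.g at h1
  unfold codim at h2
  unfold logDensity
  have h3 : (∑ s, μ s * (H562R2.CayleyIso.outCount A s : ℝ)) / A.card = weightedExpansion μ A := rfl
  rw [h3] at h1
  linarith

theorem convexBound (μ : V → ℝ) (hμ : ∀ s, 0 ≤ μ s)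
    (hinv : ∀ (c : F) (s : V), c ≠ 0 → μ (c • s) = μ s) (ψ : ℝ → ℝ)
    (hc : ConvexOn ℝ Set.univ ψ) (hm : Monotone ψ)
    (h : ∀ W : Submodule F V, ψ (codim W) ≤ weightedExpansion μ (carrier W))
    (A : Finset V) (hA : A.Nonempty) : ψ (logDensity F A) ≤ weightedExpansion μ A := by
  by_contra hlt
  rw [not_le] at hlt
  have hcont : Continuous ψ := by
    have := hc.continuousOn isOpen_univ
    rwa [continuousOn_univ] at this
  obtain ⟨c, c', h1, h2⟩ := hc.exists_affine_le_of_lt_real (x := logDensity F A)
    (a := (weightedExpansion μ A + ψ (logDensity F A)) / 2) (Set.mem_univ _) (by linarith)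
    isClosed_univ (hcont.lowerSemicontinuous.lowerSemicontinuousOn _)
  have hc0 : 0 ≤ c := by
    by_contra hneg
    rw [not_le] at hneg
    -- far to the left the affine function exceeds `ψ 0`
    have h3 := h1 (min 0 ((ψ 0 - c' + 1) / c)) (Set.mem_univ _)
    have h4 : ψ (min 0 ((ψ 0 - c' + 1) / c)) ≤ ψ 0 := hm (min_le_left _ _)
    have h5 : c * ((ψ 0 - c' + 1) / c) ≤ c * min 0 ((ψ 0 - c' + 1) / c) :=
      mul_le_mul_of_nonpos_left (min_le_right _ _) hneg.le
    rw [mul_div_cancel₀ _ hneg.ne] at h5
    linarith
  have h6 := affine μ hμ hinv c' c hc0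
    (fun W => by
      have := h1 (codim W) (Set.mem_univ _)
      have := h W
      linarith) A hA
  linarith

lemma exists_proper (A : Finset V) (hA : A.Nonempty) (hne : A ≠ univ) :
    ∃ W : Submodule F V, W ≠ ⊤ := by
  refine ⟨⊥, fun h => hne ?_⟩
  have hsub : Subsingleton V := (Submodule.subsingleton_iff F).1 ⟨fun a b => by
    have ha : a ≤ ⊥ := by rw [h]; exact le_top
    have hb : b ≤ ⊥ := by rw [h]; exact le_top
    rw [le_bot_iff] at ha hb
    rw [ha, hb]⟩
  obtain ⟨x, hx⟩ := hA
  refine Finset.eq_univ_of_forall fun y => ?_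
  rw [Subsingleton.elim y x]
  exact hx

theorem ratioBound (μ : V → ℝ) (hμ : ∀ s, 0 ≤ μ s)
    (hinv : ∀ (c : F) (s : V), c ≠ 0 → μ (c • s) = μ s)
    (A : Finset V) (hA : A.Nonempty) (hne : A ≠ univ) :
    0 < logDensity F A ∧ ∃ W : Submodule F V, W ≠ ⊤ ∧
      weightedExpansion μ (carrier W) / codim W ≤ weightedExpansion μ A / logDensity F A := by
  have hq : (1 : ℝ) < Fintype.card F := by exact_mod_cast Fintype.one_lt_card (α := F)
  have hA0 : (0 : ℝ) < A.card := by exact_mod_cast hA.card_pos
  have hlt : A.card < Fintype.card V := by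
    rw [← Finset.card_univ]
    exact Finset.card_lt_card (Finset.ssubset_univ_iff.2 hne)
  have ht : 0 < logDensity F A := by
    unfold logDensity
    apply Real.logb_pos hq
    rw [lt_div_iff₀ hA0, one_mul]
    exact_mod_cast hlt
  refine ⟨ht, ?_⟩
  have hfin : Finite {W : Submodule F V // W ≠ ⊤} := inferInstance
  obtain ⟨W₀, hW₀⟩ := exists_proper (F := F) A hA hne
  have : Nonempty {W : Submodule F V // W ≠ ⊤} := ⟨⟨W₀, hW₀⟩⟩
  obtain ⟨⟨W, hW⟩, hmin⟩ := Finite.exists_min
    (fun W : {W : Submodule F V // W ≠ ⊤} => weightedExpansion μ (carrier W.1) / codim W.1)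
  refine ⟨W, hW, ?_⟩
  set lam := weightedExpansion μ (carrier W) / codim W with hlam
  have hnn : ∀ W : Submodule F V, 0 ≤ weightedExpansion μ (carrier W) := by
    intro W
    rw [expansion_subspace]
    exact Finset.sum_nonneg fun s _ => hμ s
  have hlam0 : 0 ≤ lam := div_nonneg (hnn W) (codim_nonneg W)
  have h := affine μ hμ hinv 0 lam hlam0 (fun U => by
    by_cases hU : U = ⊤
    · rw [hU, codim_top]
      simpa using hnn (⊤ : Submodule F V)
    · have h1 := hmin ⟨U, hU⟩
      have h2 : lam ≤ weightedExpansion μ (carrier U) / codim U := h1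
      rw [le_div_iff₀ (codim_pos U hU)] at h2
      linarith) A hA
  rw [le_div_iff₀ ht]
  linarith

/-- the graph expansion as a weighted expansion -/
lemma expansion_eq (S : Finset V) (hS : ∀ s ∈ S, -s ∈ S) (h0 : (0 : V) ∉ S) (A : Finset V) :
    expansion (cay S hS h0) S.card A =
      weightedExpansion (fun s => (if s ∈ S then (1 : ℝ) else 0) / S.card) A := by
  have hcut : (cut (cay S hS h0) A : ℝ)
      = ∑ s, (if s ∈ S then (1 : ℝ) else 0) * ((A.filter fun x => x + s ∉ A).card : ℝ) := by
    unfold cut
    have h1 : ∀ s, (if s ∈ S then (1 : ℝ) else 0) * ((A.filter fun x => x + s ∉ A).card : ℝ)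
        = ∑ x, if x ∈ A ∧ x + s ∉ A ∧ s ∈ S then (1 : ℝ) else 0 := by
      intro s
      rw [Finset.card_filter]
      push_cast
      rw [Finset.mul_sum]
      rw [← Finset.sum_subset (Finset.subset_univ A)]
      · refine Finset.sum_congr rfl fun x hx => ?_
        by_cases h1 : s ∈ S <;> by_cases h2 : x + s ∈ A <;> simp [h1, h2, hx]
      · intro x _ hx
        simp [hx]
    simp_rw [h1]
    rw [Finset.sum_comm, Finset.card_filter]
    push_cast
    rw [← Finset.univ_product_univ, Finset.sum_product]
    refine Finset.sum_congr rfl fun x _ => ?_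
    symm
    refine Fintype.sum_equiv (Equiv.addLeft x) _ _ fun s => ?_
    simp only [Equiv.coe_addLeft, cay, add_sub_cancel_left]
  unfold expansion weightedExpansion
  rw [hcut, ← div_div]
  congr 1
  rw [Finset.sum_div]
  refine Finset.sum_congr rfl fun s _ => ?_
  ring

end

/-- **The subspaces give the convex envelope of the small-set expansion profile.** -/
theorem result (F V : Type) [Field F] [Fintype F] [AddCommGroup V] [Module F V] [Fintype V] :
    -- (1), (2): weighted Cayley graphs with scalar-invariant nonnegative weights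
    (∀ μ : V → ℝ, (∀ s, 0 ≤ μ s) → (∀ (c : F) (s : V), c ≠ 0 → μ (c • s) = μ s) →
      (∀ ψ : ℝ → ℝ, ConvexOn ℝ Set.univ ψ → Monotone ψ →
        (∀ W : Submodule F V, ψ (codim W) ≤ weightedExpansion μ (carrier W)) →
        ∀ A : Finset V, A.Nonempty → ψ (logDensity F A) ≤ weightedExpansion μ A) ∧
      (∀ A : Finset V, A.Nonempty → A ≠ univ → 0 < logDensity F A ∧
        ∃ W : Submodule F V, W ≠ ⊤ ∧ 0 < codim W ∧
          weightedExpansion μ (carrier W) / codim W ≤
            weightedExpansion μ A / logDensity F A)) ∧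
    -- (3), (4): Cayley graphs
    (∀ (S : Finset V) (hS : ∀ s ∈ S, -s ∈ S) (h0 : (0 : V) ∉ S),
      (∀ (c : F) (s : V), c ≠ 0 → s ∈ S → c • s ∈ S) →
      (∀ ψ : ℝ → ℝ, ConvexOn ℝ Set.univ ψ → Monotone ψ →
        (∀ W : Submodule F V, ψ (codim W) ≤ expansion (cay S hS h0) S.card (carrier W)) →
        ∀ A : Finset V, A.Nonempty → ψ (logDensity F A) ≤ expansion (cay S hS h0) S.card A) ∧
      (∀ A : Finset V, A.Nonempty → A ≠ univ → 0 < logDensity F A ∧
        ∃ W : Submodule F V, W ≠ ⊤ ∧ 0 < codim W ∧
          expansion (cay S hS h0) S.card (carrier W) / codim W ≤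
            expansion (cay S hS h0) S.card A / logDensity F A)) := by
  refine ⟨fun μ hμ hinv => ⟨fun ψ hc hm h A hA => convexBound μ hμ hinv ψ hc hm h A hA,
    fun A hA hne => ?_⟩, fun S hS h0 hinv => ?_⟩
  · obtain ⟨h1, W, hW, h2⟩ := ratioBound (F := F) μ hμ hinv A hA hne
    exact ⟨h1, W, hW, codim_pos W hW, h2⟩
  · have hμ : ∀ s : V, (0:ℝ) ≤ (if s ∈ S then (1 : ℝ) else 0) / S.card := by
      intro s
      apply div_nonneg _ (Nat.cast_nonneg _)
      split_ifs <;> norm_num
    have hi : ∀ (c : F) (s : V), c ≠ 0 → (if c • s ∈ S then (1 : ℝ) else 0) / S.card =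
        (if s ∈ S then (1 : ℝ) else 0) / S.card := by
      intro c s hc
      have : c • s ∈ S ↔ s ∈ S := by
        constructor
        · intro h
          have := hinv c⁻¹ (c • s) (inv_ne_zero hc) h
          rwa [inv_smul_smul₀ hc] at this
        · exact hinv c s hc
      simp [this]
    refine ⟨fun ψ hc hm h A hA => ?_, fun A hA hne => ?_⟩
    · rw [expansion_eq]
      refine convexBound (F := F) _ hμ hi ψ hc hm (fun W => ?_) A hA
      rw [← expansion_eq S hS h0]
      exact h W
    · obtain ⟨h1, W, hW, h2⟩ := ratioBound (F := F) _ hμ hi A hA hne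
      refine ⟨h1, W, hW, codim_pos W hW, ?_⟩
      rw [expansion_eq, expansion_eq]
      exact h2

end

end Pool.Agent.Results.MP_8d8c46_lc.CayleyEnvelope
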