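import Pool.Agent.Q330.FRD.Sharp

/-!
# Reductions to gap small-set expansion whose outputs are computed by formulas

A reduction maps an input, a subset of a finite set `X` of variables, to a list of the edges of a
regular graph. Every entry of the list (an edge or nothing) is encoded by arbitrarily many bits, and
each bit is computed by a formula with the gates AND and OR. The leaves of the formulas may be
arbitrary conditions; the cost of a formula is the number of its leaves if the leaves are literals.

The theorem: if for inputs in `A` some set of `k` vertices has expansion at most `ε`, and for inputs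
in `B` all sets of `k` vertices have expansion at least `1 - η`, then Khrapchenko's lower bound for
the pair `(A, B)` carries over, up to the factor `2 (1 - ε - η) k / |V|`, to the single edges. So for
no `η < 1 / 2` and no `δ` is small-set expansion hard, not even for parity, under reductions which
compute each edge by formulas with `o(N ^ 2)` leaves.

Idea of the proof. Let `a ∈ A` and `b ∈ B` differ in one variable, let the degrees be `d` and `d'`,
and let `S` be a set of small expansion in the first graph. If `d ≤ d'`, then the number of the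
entries which are edges of the boundary of `S` is much larger in the second graph; if `d > d'`, then
the number of the entries which are other edges is larger in the first graph. In both cases at least
`(1 - ε - η) k max (d, d')` entries differ. Sum over the pairs and use Khrapchenko's inequality.
-/

set_option autoImplicit false

namespace Pool.Agent.Results.MP_8d8c46_lc.FormulaReductions

open Finset Pool.Agent.Q330.PHI Pool.Agent.Q330.FRD
open scoped Classical

/-- The entries list the edges of the graph: each entry is empty or an edge, and each edge occurs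
exactly once. -/
def Lists {E V : Type} (G : SimpleGraph V) (y : E → Option (Sym2 V)) : Prop :=
  (∀ e s, y e = some s → s ∈ G.edgeSet) ∧ ∀ s ∈ G.edgeSet, ∃! e, y e = some s

/-- The edge has exactly one endpoint in `S`. -/
def Crosses {V : Type} (S : Finset V) (s : Sym2 V) : Prop := ∃ u ∈ S, ∃ v, v ∉ S ∧ s = s(u, v)

/-- The number of the edges with exactly one endpoint in `S`. -/
noncomputable def cut {V : Type} [Fintype V] (G : SimpleGraph V) (S : Finset V) : ℕ :=
  (univ.filter fun s : Sym2 V => s ∈ G.edgeSet ∧ Crosses S s).card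

/-- All vertices have the degree `d`. -/
def Regular {V : Type} [Fintype V] (G : SimpleGraph V) (d : ℕ) : Prop :=
  ∀ v, (univ.filter fun w => G.Adj v w).card = d

/-- The graph is regular of a degree at least `D`, its edges are listed by `y`, and some set of `k`
vertices has expansion at most `ε`. -/
def Yes {E V : Type} [Fintype V] (k D : ℕ) (ε : ℝ) (y : E → Option (Sym2 V)) : Prop :=
  ∃ (G : SimpleGraph V) (d : ℕ), Lists G y ∧ Regular G d ∧ D ≤ d ∧
    ∃ S : Finset V, S.card = k ∧ (cut G S : ℝ) ≤ ε * (d * k)

/-- The graph is regular of a degree at least `D`, its edges are listed by `y`, and all sets of `k`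
vertices have expansion at least `1 - η`. -/
def No {E V : Type} [Fintype V] (k D : ℕ) (η : ℝ) (y : E → Option (Sym2 V)) : Prop :=
  ∃ (G : SimpleGraph V) (d : ℕ), Lists G y ∧ Regular G d ∧ D ≤ d ∧
    ∀ S : Finset V, S.card = k → (1 - η) * (d * k) ≤ cut G S

section

variable {E V : Type} [Fintype E] [Fintype V]

theorem count {G : SimpleGraph V} {y : E → Option (Sym2 V)} (h : Lists G y) (p : Sym2 V → Prop) :
    (univ.filter fun e : E => ∃ s, y e = some s ∧ p s).card =
      (univ.filter fun s : Sym2 V => s ∈ G.edgeSet ∧ p s).card := by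
  refine card_bij (fun e he => Classical.choose (mem_filter.1 he).2) ?_ ?_ ?_
  · intro e he
    have h1 := Classical.choose_spec (mem_filter.1 he).2
    exact mem_filter.2 ⟨mem_univ _, h.1 e _ h1.1, h1.2⟩
  · intro e he e' he' hee
    have h1 := Classical.choose_spec (mem_filter.1 he).2
    have h2 := Classical.choose_spec (mem_filter.1 he').2
    rw [← hee] at h2
    exact (h.2 _ (h.1 e _ h1.1)).unique h1.1 h2.1
  · intro s hs
    obtain ⟨e, he, -⟩ := h.2 s (mem_filter.1 hs).2.1
    have hm : e ∈ univ.filter fun e : E => ∃ s, y e = some s ∧ p s :=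
      mem_filter.2 ⟨mem_univ _, s, he, (mem_filter.1 hs).2.2⟩
    refine ⟨e, hm, ?_⟩
    have h1 := Classical.choose_spec (mem_filter.1 hm).2
    have h2 := h1.1.symm.trans he
    exact Option.some.inj h2

theorem change (y y' : E → Option (Sym2 V)) (p : Sym2 V → Prop) :
    (univ.filter fun e : E => ∃ s, y' e = some s ∧ p s).card ≤
      (univ.filter fun e : E => ∃ s, y e = some s ∧ p s).card +
      (univ.filter fun e => y e ≠ y' e).card := by
  refine (card_le_card (t := (univ.filter fun e : E => ∃ s, y e = some s ∧ p s) ∪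
    (univ.filter fun e => y e ≠ y' e)) fun e he => ?_).trans (card_union_le _ _)
  rw [mem_union, mem_filter, mem_filter]
  by_cases h : y e = y' e
  · obtain ⟨s, hs, hp⟩ := (mem_filter.1 he).2
    exact Or.inl ⟨mem_univ _, s, h.trans hs, hp⟩
  · exact Or.inr ⟨mem_univ _, h⟩

omit [Fintype E] in
theorem edge_count {G : SimpleGraph V} {d : ℕ} (h : Regular G d) :
    2 * (univ.filter fun s : Sym2 V => s ∈ G.edgeSet).card = d * Fintype.card V := by
  have h1 := G.sum_degrees_eq_twice_card_edges
  have h2 : (univ.filter fun s : Sym2 V => s ∈ G.edgeSet) = G.edgeFinset := by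
    ext s
    rw [mem_filter, SimpleGraph.mem_edgeFinset]
    exact ⟨fun h => h.2, fun h => ⟨mem_univ _, h⟩⟩
  have h3 : ∀ v, G.degree v = d := by
    intro v
    rw [← h v, SimpleGraph.degree]
    congr 1
    ext w
    rw [SimpleGraph.mem_neighborFinset, mem_filter]
    exact ⟨fun h => ⟨mem_univ _, h⟩, fun h => h.2⟩
  rw [h2, ← h1, sum_congr rfl (fun v _ => h3 v), sum_const, smul_eq_mul, card_univ, mul_comm]

omit [Fintype E] in
theorem split (G : SimpleGraph V) (S : Finset V) :
    (univ.filter fun s : Sym2 V => s ∈ G.edgeSet).card =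
      cut G S + (univ.filter fun s : Sym2 V => s ∈ G.edgeSet ∧ ¬ Crosses S s).card := by
  have h := card_filter_add_card_filter_not (s := univ.filter fun s : Sym2 V => s ∈ G.edgeSet)
    (p := fun s => Crosses S s)
  rw [filter_filter, filter_filter] at h
  rw [← h]
  rfl

theorem differ {k D : ℕ} {ε η : ℝ} (hk : 2 * k ≤ Fintype.card V) (hε : 0 ≤ ε) (hη : 0 ≤ η)
    (hsum : ε + η ≤ 1) {y y' : E → Option (Sym2 V)} (hy : Yes k D ε y) (hy' : No k D η y') :
    (1 - ε - η) * (D * k) ≤ ((univ.filter fun e => y e ≠ y' e).card : ℝ) := by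
  obtain ⟨G, d, hG, hd, hDd, S, hS, hcut⟩ := hy
  obtain ⟨G', d', hG', hd', hDd', hall⟩ := hy'
  have h1 := hall S hS
  have c1 := change y y' (Crosses S)
  rw [count hG, count hG'] at c1
  have c2 := change y' y (fun s => ¬ Crosses S s)
  rw [count hG, count hG'] at c2
  have e1 := edge_count hd
  have e2 := edge_count hd'
  rw [split G S] at e1
  rw [split G' S] at e2
  have hsymm : (univ.filter fun e => y' e ≠ y e) = (univ.filter fun e => y e ≠ y' e) := by
    refine filter_congr fun e _ => ?_
    exact ne_comm
  rw [hsymm] at c2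
  obtain ⟨n1, hn1⟩ : ∃ n, n = (univ.filter fun s : Sym2 V =>
    s ∈ G.edgeSet ∧ ¬ Crosses S s).card := ⟨_, rfl⟩
  obtain ⟨n2, hn2⟩ : ∃ n, n = (univ.filter fun s : Sym2 V =>
    s ∈ G'.edgeSet ∧ ¬ Crosses S s).card := ⟨_, rfl⟩
  obtain ⟨m, hm⟩ : ∃ n, n = (univ.filter fun e => y e ≠ y' e).card := ⟨_, rfl⟩
  have f1 : (cut G' S : ℝ) ≤ cut G S + m := by
    rw [hm]
    exact_mod_cast c1
  have f2' : n1 ≤ n2 + m := by
    rw [hn1, hn2, hm]
    convert c2
  have f2 : (n1 : ℝ) ≤ n2 + m := by exact_mod_cast f2'
  rw [← hn1] at e1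
  rw [← hn2] at e2
  have e1' : 2 * ((cut G S : ℝ) + n1) = d * Fintype.card V := by exact_mod_cast e1
  have e2' : 2 * ((cut G' S : ℝ) + n2) = d' * Fintype.card V := by exact_mod_cast e2
  have hkR : 2 * (k : ℝ) ≤ Fintype.card V := by exact_mod_cast hk
  have hk0 : (0 : ℝ) ≤ k := Nat.cast_nonneg k
  have hDR : (D : ℝ) ≤ d := by exact_mod_cast hDd
  have hDR' : (D : ℝ) ≤ d' := by exact_mod_cast hDd'
  rw [← hm]
  rcases le_total (d : ℝ) d' with hdd | hdd
  · have g1 : (1 - η) * (d' * k) - ε * (d * k) ≤ m := by linarith
    have g2 : ε * ((d : ℝ) * k) ≤ ε * (d' * k) :=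
      mul_le_mul_of_nonneg_left (mul_le_mul_of_nonneg_right hdd hk0) hε
    have g3 : (1 - ε - η) * ((D : ℝ) * k) ≤ (1 - ε - η) * (d' * k) :=
      mul_le_mul_of_nonneg_left (mul_le_mul_of_nonneg_right hDR' hk0) (by linarith)
    linarith
  · have g0 : ((d : ℝ) - d') * (2 * k) ≤ (d - d') * Fintype.card V :=
      mul_le_mul_of_nonneg_left hkR (by linarith)
    have g1 : ((d : ℝ) - d') * k + (1 - η) * (d' * k) - ε * (d * k) ≤ m := by linarith
    have g2 : η * ((d' : ℝ) * k) ≤ η * (d * k) :=
      mul_le_mul_of_nonneg_left (mul_le_mul_of_nonneg_right hdd hk0) hη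
    have g3 : (1 - ε - η) * ((D : ℝ) * k) ≤ (1 - ε - η) * (d * k) :=
      mul_le_mul_of_nonneg_left (mul_le_mul_of_nonneg_right hDR hk0) (by linarith)
    linarith

end

/-- (1) Let the edges of regular graphs with the vertex set `V`, of degrees at least `D`, be listed
with an encoding by bits `φ e j`, which are formulas, and let `k ≤ |V| / 2`, `ε, η ≥ 0` and
`ε + η ≤ 1`. For the inputs in `A` let some set of `k` vertices have expansion at most `ε`, and for
the inputs in `B` let all sets of `k` vertices have expansion at least `1 - η`. Then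
`(1 - ε - η) D k` times the number of the pairs in `A × B` which differ in exactly one variable, which
is in `Z`, is at most `√(|A| |B|)` times the sum of the square roots of the costs of all formulas;
the cost of a leaf is the product of its two sensitivities to `Z`.

(2) If `A` consists of the sets with an even number of elements, and `B` of the sets with an odd
number of elements, then the sum of the square roots of the costs is at least `(1 - ε - η) D k N` for
`N` variables.

(3) Conversely, for any yes instance `y₁` and any no instance `y₀` there is such a reduction of the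
parity of `N = 2 ^ t` bits, to `y₁` and `y₀`, with one bit for each entry, for which the sum is at
most `N` times the number of the entries at which `y₁` and `y₀` differ. -/
theorem result :
    (∀ (X E J V : Type) [Fintype X] [Fintype E] [Fintype J] [Fintype V] (k D : ℕ) (ε η : ℝ)
      (φ : E → J → Fml X) (dec : E → (J → Prop) → Option (Sym2 V)) (Z : Finset X)
      (A B : Finset (Finset X)), 2 * k ≤ Fintype.card V → 0 ≤ ε → 0 ≤ η → ε + η ≤ 1 →
      (∀ a ∈ A, Yes k D ε fun e => dec e fun j => (φ e j).Val a) →
      (∀ b ∈ B, No k D η fun e => dec e fun j => (φ e j).Val b) →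
      (1 - ε - η) * (D * k) * (prs Z A B).card ≤
        Real.sqrt (A.card * B.card) * ∑ e, ∑ j, Real.sqrt ((φ e j).cost Z)) ∧
    (∀ (X E J V : Type) [Fintype X] [Fintype E] [Fintype J] [Fintype V] (k D : ℕ) (ε η : ℝ)
      (φ : E → J → Fml X) (dec : E → (J → Prop) → Option (Sym2 V)),
      2 * k ≤ Fintype.card V → 0 ≤ ε → 0 ≤ η → ε + η ≤ 1 →
      (∀ a : Finset X, a.card % 2 = 0 → Yes k D ε fun e => dec e fun j => (φ e j).Val a) →
      (∀ b : Finset X, b.card % 2 = 1 → No k D η fun e => dec e fun j => (φ e j).Val b) →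
      (1 - ε - η) * (D * k) * Fintype.card X ≤ ∑ e, ∑ j, Real.sqrt ((φ e j).cost univ)) ∧
    (∀ (E V : Type) [Fintype E] [Fintype V] (k D : ℕ) (ε η : ℝ) (y₁ y₀ : E → Option (Sym2 V))
      (t : ℕ), Yes k D ε y₁ → No k D η y₀ →
      ∃ (φ : E → Unit → Fml (Fin (2 ^ t))) (dec : E → (Unit → Prop) → Option (Sym2 V)),
        (∀ a : Finset (Fin (2 ^ t)), a.card % 2 = 0 →
          (fun e => dec e fun j => (φ e j).Val a) = y₁) ∧
        (∀ b : Finset (Fin (2 ^ t)), b.card % 2 = 1 →
          (fun e => dec e fun j => (φ e j).Val b) = y₀) ∧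
        ∑ e, ∑ j, Real.sqrt ((φ e j).cost univ) ≤
          ((univ.filter fun e => y₁ e ≠ y₀ e).card : ℝ) * 2 ^ t) := by
  have key : ∀ (X E J V : Type) [Fintype X] [Fintype E] [Fintype J] [Fintype V] (k D : ℕ)
      (ε η : ℝ) (φ : E → J → Fml X) (dec : E → (J → Prop) → Option (Sym2 V)),
      2 * k ≤ Fintype.card V → 0 ≤ ε → 0 ≤ η → ε + η ≤ 1 →
      ∀ a b : Finset X, (Yes k D ε fun e => dec e fun j => (φ e j).Val a) →
      (No k D η fun e => dec e fun j => (φ e j).Val b) →
      (1 - ε - η) * (D * k) ≤ ((univ.filter fun e : E =>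
        ∃ j, ¬ ((φ e j).Val a ↔ (φ e j).Val b)).card : ℝ) := by
    intro X E J V _ _ _ _ k D ε η φ dec hk hε hη hs a b ha hb
    refine (differ hk hε hη hs ha hb).trans ?_
    norm_cast
    refine card_le_card fun e he => ?_
    rw [mem_filter] at he ⊢
    refine ⟨mem_univ _, ?_⟩
    by_contra hcon
    push Not at hcon
    refine he.2 ?_
    congr 1
    funext j
    exact propext (hcon j)
  refine ⟨?_, ?_, ?_⟩
  · intro X E J V _ _ _ _ k D ε η φ dec Z A B hk hε hη hs hA hB
    exact core Z φ A B _ fun a ha b hb => key X E J V k D ε η φ dec hk hε hη hs a b (hA a ha)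
      (hB b hb)
  · intro X E J V _ _ _ _ k D ε η φ dec hk hε hη hs hA hB
    exact core_parity φ _ fun a ha b hb => key X E J V k D ε η φ dec hk hε hη hs a b
      (hA a (mem_filter.1 ha).2) (hB b (mem_filter.1 hb).2)
  · intro E V _ _ k D ε η y₁ y₀ t _ _
    obtain ⟨φ, dec, h1, h2, h3⟩ := choose_word y₁ y₀ t
    exact ⟨φ, dec, fun a ha => h1 a (mem_filter.2 ⟨mem_univ _, ha⟩),
      fun a ha => h2 a (mem_filter.2 ⟨mem_univ _, ha⟩), by convert h3⟩

end Pool.Agent.Results.MP_8d8c46_lc.FormulaReductions
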