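import Pool.Agent.Q330.NEG.Core
import Pool.Agent.Results.MP_8d8c46_lc.FormulaReductions

/-!
# Reductions with few negations to gap small-set expansion

A reduction maps an input, a subset of `X`, to a list of the edges of a regular graph. Every entry of
the list (an edge or nothing) is encoded by `b` bits, and all bits are computed by one circuit whose
gates are arbitrary monotone functions of the input and of earlier gates, without any bound of their
number or complexity, and `r` NOT gates.

The theorem: if along an increasing chain of `L + 1` inputs the graphs are alternately yes instances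
(some set of `k` vertices has expansion at most `ε`) and no instances (all sets of `k` vertices have
expansion at least `1 - η`) of degrees at least `D`, then the number of the entries is at least
`(1 - ε - η) D k L / ((b + 1) 2 ^ r - 1)`. So if exactly the `D |V| / 2` edges are listed, then
`(b + 1) 2 ^ r > 2 (1 - ε - η) (k / |V|) L`. Markov's theorem says that functions which alternate
`L` times on a chain need about `log L` NOT gates; a reduction to a problem without a gap can save
all of them, but here only `log (b |V| / k)` many of them can be saved.

Idea of the proof. A step at which no NOT gate changes changes no bit from one to zero. At the other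
steps the vector of the NOT gates decreases lexicographically, so there are less than `2 ^ r` of them.
Hence every bit increases at most `2 ^ r` times. But at each step many entries change.
-/

set_option autoImplicit false

namespace Pool.Agent.Results.MP_8d8c46_lc.FewNegations

open Finset Pool.Agent.Q330.NEG Pool.Agent.Results.MP_8d8c46_lc.FormulaReductions
open scoped Classical

/-- (1) Let the edges of regular graphs with the vertex set `V`, of degrees at least `D`, be listed
with an encoding by bits `out e j`, which are nodes of a circuit `C` with arbitrary monotone gates and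
some NOT gates, and let `2 k ≤ |V|`, `ε, η ≥ 0` and `ε + η ≤ 1`. Let `x 0 ⊆ x 1 ⊆ … ⊆ x L` be inputs;
for even `t` let some set of `k` vertices of the graph of `x t` have expansion at most `ε`, and for odd
`t` let all such sets have expansion at least `1 - η`. Then `(1 - ε - η) D k L` is at most the number
of the entries times `(b + 1) 2 ^ r - 1`, where `b` is the number of the bits of an entry and `r` the
number of the NOT gates.

(2) The same holds for reductions of the parity of `N` bits, with `L = N`.

(3) Conversely, for any yes instance `y₁` and any no instance `y₀` there is such a reduction of the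
parity of `N < 2 ^ (r + 1)` bits, to `y₁` and `y₀`, with one bit for each entry and `r` NOT gates. -/
theorem result :
    (∀ (X E J V : Type) [Fintype E] [Fintype J] [Fintype V] (k D : ℕ) (ε η : ℝ) (C : Circuit X)
      (out : E → J → Fin C.s) (dec : E → (J → Prop) → Option (Sym2 V)) (x : ℕ → Finset X) (L : ℕ),
      2 * k ≤ Fintype.card V → 0 ≤ ε → 0 ≤ η → ε + η ≤ 1 → (∀ t < L, x t ⊆ x (t + 1)) →
      (∀ t ≤ L, t % 2 = 0 → Yes k D ε fun e => dec e fun j => C.val (x t) (out e j)) →
      (∀ t ≤ L, t % 2 = 1 → No k D η fun e => dec e fun j => C.val (x t) (out e j)) →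
      (1 - ε - η) * (D * k) * L ≤
        Fintype.card E * ((Fintype.card J + 1) * 2 ^ C.nots.card - 1)) ∧
    (∀ (N : ℕ) (E J V : Type) [Fintype E] [Fintype J] [Fintype V] (k D : ℕ) (ε η : ℝ)
      (C : Circuit (Fin N)) (out : E → J → Fin C.s) (dec : E → (J → Prop) → Option (Sym2 V)),
      2 * k ≤ Fintype.card V → 0 ≤ ε → 0 ≤ η → ε + η ≤ 1 →
      (∀ a : Finset (Fin N), a.card % 2 = 0 →
        Yes k D ε fun e => dec e fun j => C.val a (out e j)) →
      (∀ a : Finset (Fin N), a.card % 2 = 1 →
        No k D η fun e => dec e fun j => C.val a (out e j)) →
      (1 - ε - η) * (D * k) * N ≤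
        Fintype.card E * ((Fintype.card J + 1) * 2 ^ C.nots.card - 1)) ∧
    (∀ (X E V : Type) [Fintype X] [Fintype V] (r k D : ℕ) (ε η : ℝ) (y₁ y₀ : E → Option (Sym2 V)),
      Fintype.card X < 2 ^ (r + 1) → Yes k D ε y₁ → No k D η y₀ →
      ∃ (C : Circuit X) (out : E → Unit → Fin C.s) (dec : E → (Unit → Prop) → Option (Sym2 V)),
        C.nots.card = r ∧
        (∀ a : Finset X, a.card % 2 = 0 →
          (fun e => dec e fun j => C.val a (out e j)) = y₁) ∧
        (∀ a : Finset X, a.card % 2 = 1 →
          (fun e => dec e fun j => C.val a (out e j)) = y₀)) := by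
  have part1 : ∀ (X E J V : Type) [Fintype E] [Fintype J] [Fintype V] (k D : ℕ) (ε η : ℝ)
      (C : Circuit X) (out : E → J → Fin C.s) (dec : E → (J → Prop) → Option (Sym2 V))
      (x : ℕ → Finset X) (L : ℕ),
      2 * k ≤ Fintype.card V → 0 ≤ ε → 0 ≤ η → ε + η ≤ 1 → (∀ t < L, x t ⊆ x (t + 1)) →
      (∀ t ≤ L, t % 2 = 0 → Yes k D ε fun e => dec e fun j => C.val (x t) (out e j)) →
      (∀ t ≤ L, t % 2 = 1 → No k D η fun e => dec e fun j => C.val (x t) (out e j)) →
      (1 - ε - η) * (D * k) * L ≤
        Fintype.card E * ((Fintype.card J + 1) * 2 ^ C.nots.card - 1) := by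
    intro X E J V _ _ _ k D ε η C out dec x L hk hε hη hs hx hyes hno
    refine core C out x L hx _ fun t ht => ?_
    have hsub : ∀ a b : Finset X, (univ.filter fun e : E =>
        (fun e => dec e fun j => C.val a (out e j)) e ≠
        (fun e => dec e fun j => C.val b (out e j)) e).card ≤
        (univ.filter fun e : E => ∃ j, ¬ (C.val a (out e j) ↔ C.val b (out e j))).card := by
      intro a b
      refine card_le_card fun e he => ?_
      rw [mem_filter] at he ⊢
      refine ⟨mem_univ _, ?_⟩
      by_contra hcon
      push Not at hcon
      refine he.2 ?_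
      simp only
      congr 1
      funext j
      exact propext (hcon j)
    rcases Nat.mod_two_eq_zero_or_one t with h | h
    · have h1 := differ hk hε hη hs (hyes t ht.le h) (hno (t + 1) ht (by omega))
      exact h1.trans (by exact_mod_cast hsub (x t) (x (t + 1)))
    · have h1 := differ hk hε hη hs (hyes (t + 1) ht (by omega)) (hno t ht.le h)
      have h2 := hsub (x (t + 1)) (x t)
      have h3 : (univ.filter fun e : E =>
          ∃ j, ¬ (C.val (x (t + 1)) (out e j) ↔ C.val (x t) (out e j))) =
          (univ.filter fun e : E =>
          ∃ j, ¬ (C.val (x t) (out e j) ↔ C.val (x (t + 1)) (out e j))) := by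
        refine filter_congr fun e _ => exists_congr fun j => not_congr ?_
        exact Iff.comm
      rw [h3] at h2
      exact h1.trans (by exact_mod_cast h2)
  refine ⟨part1, ?_, ?_⟩
  · intro N E J V _ _ _ k D ε η C out dec hk hε hη hs hyes hno
    have hcard : ∀ t ≤ N, ((univ.filter fun i : Fin N => (i : ℕ) < t)).card = t := by
      intro t ht
      rw [Fin.card_filter_val_lt, min_eq_right ht]
    refine part1 (Fin N) E J V k D ε η C out dec (fun t => univ.filter fun i : Fin N => (i : ℕ) < t)
      N hk hε hη hs (fun t _ i hi => ?_) (fun t ht h => ?_) (fun t ht h => ?_)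
    · rw [mem_filter] at hi ⊢
      exact ⟨mem_univ _, by omega⟩
    · exact hyes _ (by rw [hcard t ht]; exact h)
    · exact hno _ (by rw [hcard t ht]; exact h)
  · intro X E V _ _ r k D ε η y₁ y₀ hr _ _
    obtain ⟨C, o, hC, ho⟩ := exists_parity X r hr
    refine ⟨C, fun _ _ => o, fun e w => if w () then y₀ e else y₁ e, hC, ?_, ?_⟩
    · intro a ha
      funext e
      have h : ¬ C.val a o := by rw [ho]; omega
      simp only [h, if_false]
    · intro a ha
      funext e
      have h : C.val a o := by rw [ho]; exact ha
      simp only [h, if_true]

end Pool.Agent.Results.MP_8d8c46_lc.FewNegations
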