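import Pool.Agent.Q329.ST.Main

/-!
# Small-set expansion is hard for read-once tensor networks on cyclic covers

The instances: for `u, v < n` a voltage `x (u, v)` modulo `q`. The graph `cover x` has the left
vertices `(u, a)` and the right vertices `(v, b)`, `a, b` modulo `q`, and `(u, a)` is joined to
`(v, a + x (u, v))`; it is an `n`-regular graph on `N = 2 n q` vertices, a cyclic cover of the
complete bipartite graph (`Pool/Agent/Q329/ST/Cover.lean`). `expansion G d S` is the number of edges
that leave `S` divided by `d |S|`. We consider `SSE(η, δ)` with `δ = 1 / q` for these graphs: a set of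
exactly `N / q = 2 n` vertices of expansion `0` (yes) or all sets of `N / q` vertices of expansion at
least `1 - 1 / q - ε` (no).

A tree tensor network `Net K V A W` (`Pool/Agent/TH700/PA/Defs.lean`) has leaves that read one symbol
of the alphabet `A` each (with a vector in `K ^ W` for each symbol); an inner node combines the
vectors of its two children by an arbitrary bilinear map. It accepts the input `x` if a linear form
of the vector of the root is not zero. The field `K` and the weights are arbitrary, so there may be
cancellations. The tree and the order of the positions are arbitrary; if every right child is a leaf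
then this is a matrix product (a weighted read-once branching program). The bond dimension is
`card W`.

(1) For all `q ≥ 2` and `ε > 0` there is a constant `D` such that for all `n ≥ D` networks with any
number of nodes which read every voltage at most once, accept all yes instances and reject all no
instances have bond dimension at least `2 ^ (n / D)`; up to the factor `2 ^ μ` this also holds for
random networks that never accept a no instance and accept each yes instance with probability at
least `2 ^ (- μ)`. For `1 / q + ε ≤ η` this is a lower bound for `SSE(η, 1 / q)`, and networks for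
general regular graphs, or for yes instances of expansion at most `η`, have to do more.

(2) The bound `1 - 1 / q` is optimal: every cover has a set of `N / q` vertices of expansion at most
`1 - 1 / q`.

(3) The dependence on `n` is optimal up to the constant: networks over `ℚ` with bond dimension
`q ^ (2 n)` which read every voltage once accept exactly the covers with a set of `N / q` vertices of
expansion `0`.

Proof. As for `MP_325f1f_lc.TensorNetworksLinear` (linear unique games) the replacement lemma of
`Pool/Agent/TH700/PA` is applied to the voltages of random labellings: among many accepted covers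
some mixture of different ones, along a partition of the pairs `(u, v)` into a bounded number of
parts, is accepted. New is that the mixture is a small-set expander, not only a game of small value:
the number of edges inside an arbitrary set `S` of `2 n` vertices is a sum over the pairs `(u, v)` of
a function of the two random labels with the mean `|S_u| |S_v| / q`, and the total mean is at most
`n ^ 2 / q`. In each part fix the labels at the heavy side, bound an exponential moment over the
labels at the light side, and take a union bound over all `2 ^ (2 n q)` sets.
-/

set_option autoImplicit false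

namespace Pool.Agent.Results.MP_8d8c46_lc.TensorNetworks

open Pool.Agent.TH700.PA (Net)
open Pool.Agent.Q329.ST

theorem result (q : ℕ) [NeZero q] (hq : 2 ≤ q) :
    -- the instances are regular graphs with `2 n q` vertices
    (∀ n : ℕ, Nat.card (Vtx n q) = 2 * n * q ∧ ∀ (x : Fin n × Fin n → ZMod q) (s : Vtx n q),
      Nat.card {t // (cover x).Adj s t} = n) ∧
    -- (1) the lower bound
    (∀ ε : ℝ, 0 < ε → ∃ D : ℕ, 0 < D ∧ ∀ n : ℕ, D ≤ n →
      ∀ (μ : ℕ) (R : Type) [Fintype R] [Nonempty R] (K W : R → Type) [∀ ρ, Field (K ρ)]
        [∀ ρ, Fintype (W ρ)] (T : ∀ ρ, Net (K ρ) (Fin n × Fin n) (ZMod q) (W ρ))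
        (a : ∀ ρ, W ρ → K ρ),
        (∀ ρ e, (T ρ).reads e ≤ 1) →
        (∀ ρ x, (∀ S : Finset (Vtx n q), S.card = 2 * n →
          1 - 1 / (q : ℝ) - ε ≤ expansion (cover x) n S) → (T ρ).value (a ρ) x = 0) →
        (∀ x, (∃ S : Finset (Vtx n q), S.card = 2 * n ∧ expansion (cover x) n S = 0) →
          Nat.card R ≤ 2 ^ μ * Nat.card {ρ // (T ρ).value (a ρ) x ≠ 0}) →
        ∃ ρ, 2 ^ n ≤ (2 ^ μ * Fintype.card (W ρ)) ^ D) ∧
    -- (2) `1 - 1 / q` is optimal
    (∀ n : ℕ, 1 ≤ n → ∀ x : Fin n × Fin n → ZMod q,
      ∃ S : Finset (Vtx n q), S.card = 2 * n ∧ expansion (cover x) n S ≤ 1 - 1 / (q : ℝ)) ∧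
    -- (3) the upper bound
    ∀ n : ℕ, 1 ≤ n →
      ∃ (T : Net ℚ (Fin n × Fin n) (ZMod q) (Fin n ⊕ Fin n → ZMod q))
        (a : (Fin n ⊕ Fin n → ZMod q) → ℚ),
        T.Linear ∧ (∀ e, T.reads e = 1) ∧ ∀ x, T.value a x ≠ 0 ↔
          ∃ S : Finset (Vtx n q), S.card = 2 * n ∧ expansion (cover x) n S = 0 := by
  refine ⟨fun n => ⟨card_vtx, fun x s => nbr_card x s⟩, fun ε hε => lower q hq ε hε,
    fun n hn x => small_set hn x, fun n hn => ?_⟩
  obtain ⟨T, a, h1, h2, h3⟩ := Pool.Agent.Q329.LT.upper q hn
  exact ⟨T, a, h1, h2, fun x => (h3 x).trans (yes_iff hn x)⟩

end Pool.Agent.Results.MP_8d8c46_lc.TensorNetworks
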